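import Mathlib
import Pool.Agent.helper81.DI.SpecC

/-!
# Project di (MP_baa4d7_al), module C13
-/

set_option autoImplicit false

namespace Pool.Agent.DI

open Pool.Agent.helper58.DC

section

variable {Γ : Type} [Group Γ] [Finite Γ]

/-- summation over a class and over the group -/
theorem C13_class (x : Γ) (f : Γ → ℂ) :
    (Nat.card (Subgroup.centralizer ({x} : Set Γ)) : ℂ) * ∑ᶠ y ∈ conjugatesOf x, f y =
      ∑ᶠ t : Γ, f (t⁻¹ * x * t) := by
  classical
  have : Fintype Γ := Fintype.ofFinite Γ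
  have h1 : conjugatesOf x = ((Finset.univ.image fun t : Γ => t⁻¹ * x * t : Finset Γ) : Set Γ) := by
    ext y
    rw [Finset.mem_coe, Finset.mem_image]
    show IsConj x y ↔ _
    rw [isConj_iff]
    constructor
    · rintro ⟨c, hc⟩
      exact ⟨c⁻¹, Finset.mem_univ _, by rw [inv_inv]; exact hc⟩
    · rintro ⟨c, -, hc⟩
      exact ⟨c⁻¹, by rw [inv_inv]; exact hc⟩
  rw [h1, finsum_mem_coe_finset, finsum_eq_sum_of_fintype,
    Finset.sum_comp f (fun t : Γ => t⁻¹ * x * t), Finset.mul_sum]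
  refine Finset.sum_congr rfl fun y hy => ?_
  obtain ⟨t₀, -, rfl⟩ := Finset.mem_image.1 hy
  have e : Subgroup.centralizer ({x} : Set Γ) ≃ {t : Γ // t⁻¹ * x * t = t₀⁻¹ * x * t₀} :=
    { toFun := fun c => ⟨c * t₀, by
        have h := Subgroup.mem_centralizer_singleton_iff.1 c.2
        have h2 : (c : Γ)⁻¹ * x * c = x := by
          rw [mul_assoc, ← h, ← mul_assoc, inv_mul_cancel, one_mul]
        calc ((c : Γ) * t₀)⁻¹ * x * (c * t₀) = t₀⁻¹ * ((c : Γ)⁻¹ * x * c) * t₀ := by group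
          _ = _ := by rw [h2]⟩
      invFun := fun t => ⟨t.1 * t₀⁻¹, by
        rw [Subgroup.mem_centralizer_singleton_iff]
        have h := t.2
        calc t.1 * t₀⁻¹ * x = t.1 * (t₀⁻¹ * x * t₀) * t₀⁻¹ := by group
          _ = t.1 * (t.1⁻¹ * x * t.1) * t₀⁻¹ := by rw [h]
          _ = x * (t.1 * t₀⁻¹) := by group⟩
      left_inv := fun c => Subtype.ext (by
        show (c : Γ) * t₀ * t₀⁻¹ = c
        group)
      right_inv := fun t => Subtype.ext (by
        show t.1 * t₀⁻¹ * t₀ = t.1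
        group) }
  rw [Nat.card_congr e, Nat.card_eq_fintype_card, Fintype.card_subtype, nsmul_eq_mul]

/-- summation over the cosets and over the group -/
theorem C13_coset (N : Subgroup Γ) (h : Γ → ℂ) (hN : ∀ t, ∀ n ∈ N, h (t * n) = h t) :
    ∑ᶠ t : Γ, h t = (Nat.card N : ℂ) * ∑ᶠ q : Γ ⧸ N, h q.out := by
  classical
  have : Fintype Γ := Fintype.ofFinite Γ
  have : Fintype (Γ ⧸ N) := Fintype.ofFinite _
  rw [finsum_eq_sum_of_fintype, finsum_eq_sum_of_fintype]
  have h1 : ∀ t : Γ, h t = h (QuotientGroup.mk (s := N) t).out := by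
    intro t
    obtain ⟨n, hn⟩ := QuotientGroup.mk_out_eq_mul N t
    rw [hn, hN t n n.2]
  rw [Finset.sum_congr rfl fun t _ => h1 t,
    Finset.sum_comp (fun q : Γ ⧸ N => h q.out) (fun t : Γ => QuotientGroup.mk (s := N) t),
    Finset.mul_sum, Finset.image_univ_of_surjective QuotientGroup.mk_surjective]
  refine Finset.sum_congr rfl fun q _ => ?_
  have e : N ≃ {t : Γ // QuotientGroup.mk (s := N) t = q} :=
    { toFun := fun n => ⟨q.out * n, by
        rw [QuotientGroup.mk_mul_of_mem _ n.2, QuotientGroup.out_eq']⟩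
      invFun := fun t => ⟨q.out⁻¹ * t.1, by
        rw [← QuotientGroup.eq, QuotientGroup.out_eq', t.2]⟩
      left_inv := fun n => Subtype.ext (by
        show q.out⁻¹ * (q.out * (n : Γ)) = n
        group)
      right_inv := fun t => Subtype.ext (by
        show q.out * (q.out⁻¹ * t.1) = t.1
        group) }
  rw [Nat.card_congr e, Nat.card_eq_fintype_card, Fintype.card_subtype, nsmul_eq_mul]

end

theorem C13_val (p : ℕ) [Fact p.Prime] {a b : ℕ} (hb : b ≠ 0) (h : a ∣ b) :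
    padicValNat p a ≤ padicValNat p b :=
  (padicValNat_dvd_iff_le hb).1 (pow_padicValNat_dvd.trans h)

theorem C13 (hC1 : C1_stmt) (hC3 : C3_stmt) (hC12 : C12_stmt) (hB1 : B1_stmt) (hB2 : B2_stmt) :
    C13_stmt := by
  intro Γ _ _ p _ M hM hp N ψ hψ d hd hdef θ hθ hind
  by_contra hcon
  obtain ⟨c1, c2, c3, c4, c5, c6, c7, c8, c9, c10⟩ := hC1 p M hM hp
  have hcard : Nat.card (⊤ : Subgroup Γ) ≠ 0 := Nat.card_pos.ne'
  -- `θ` has defect zero
  have hθ0 : Defect p ⊤ θ 0 := by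
    obtain ⟨⟨n, hn0, hn1, hn2⟩, -⟩ := (hB1 Γ).2 θ hθ
    have hn2' : n ∣ Nat.card (⊤ : Subgroup Γ) := by
      rw [Subgroup.card_top]
      exact hn2
    have hle := C13_val p hcard hn2'
    refine ⟨n, hn1, ?_⟩
    by_contra hne
    apply hcon
    refine ⟨θ, hθ, fun g => c1 _,
      (padicValNat p (Nat.card (⊤ : Subgroup Γ)) : ℤ) - padicValNat p n, ?_, n, hn1, rfl⟩
    omega
  obtain ⟨x, hx1, hx2⟩ := hC12 Γ p M hM hp θ hθ hθ0
  obtain ⟨⟨n, hn0, hn1, hn2⟩, hcl, hint, -, -⟩ := (hB2 Γ N).2 ψ hψ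
  -- `|N| / ψ(1)` is divisible by `p`
  obtain ⟨m, hm⟩ := hn2
  have hN0 : Nat.card N ≠ 0 := Nat.card_pos.ne'
  have hm0 : m ≠ 0 := by
    rintro rfl
    exact hN0 (by rw [hm, mul_zero])
  have hpm : p ∣ m := by
    obtain ⟨n', hn', hd'⟩ := hdef
    have h1 : n' = n := by
      have : (n' : ℂ) = n := by rw [← hn', hn1]
      exact_mod_cast this
    rw [h1, hm, padicValNat.mul hn0.ne' hm0, Nat.cast_add] at hd'
    apply dvd_of_one_le_padicValNat
    omega
  -- the sum over the cosets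
  set c : ℕ := Nat.card (Subgroup.centralizer ({x} : Set Γ)) with hc
  set S : ℂ := ∑ᶠ q : Γ ⧸ N, ψ (q.out⁻¹ * x * q.out) with hS
  have hSint : IsIntegral ℤ S := by
    classical
    have : Fintype (Γ ⧸ N) := Fintype.ofFinite _
    rw [hS, finsum_eq_sum_of_fintype]
    exact IsIntegral.sum _ fun q _ => hint _
  have h1 : (c : ℂ) * ∑ᶠ y ∈ conjugatesOf x, ψ y = (Nat.card N : ℂ) * S := by
    rw [C13_class x ψ, C13_coset N (fun t => ψ (t⁻¹ * x * t))]
    intro t n hn
    have h2 := hcl (t⁻¹ * x * t) n⁻¹ (N.inv_mem hn)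
    rw [← h2]
    congr 1
    group
  have hnC : (n : ℂ) ≠ 0 := by exact_mod_cast hn0.ne'
  have h2 : (c : ℂ) * omega ψ x = S * m := by
    unfold omega
    rw [← mul_div_assoc, h1, hn1, hm, Nat.cast_mul]
    field_simp
  have h3 : Mcong M ((c : ℂ) * omega ψ x) 0 := by
    rw [h2]
    have := c5 (m : ℂ) 0 S hSint ((c7 m).2 hpm)
    rwa [mul_zero] at this
  rcases c6 _ _ ((isIntegral_algebraMap (R := ℤ) (A := ℂ) (x := (c : ℤ))) |> fun h => by
      simpa using h) ((hC3 Γ).2.2.2 N ψ hψ x) h3 with h | h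
  · exact hx1 ((c7 c).1 h)
  · exact hx2 (c3 _ _ _ (c2 _ _ (hind x)) h)

end Pool.Agent.DI
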